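import Mathlib

/-!
Intersection graphs of connected subgraphs of subdivisions of a fixed graph.
-/

set_option autoImplicit false

namespace Pool.Agent.TH499.Univ

/-- Vertices of the subdivision of `Y` in which each edge `uv` with `u < v` is replaced by a path
with `ℓ u v` internal vertices: the vertices of `Y`, and for each such edge the new internal
vertices `(u, v, k)` with `k < ℓ u v`. -/
def SubV {m : ℕ} (Y : SimpleGraph (Fin m)) (ℓ : Fin m → Fin m → ℕ) : Type :=
  Fin m ⊕ {x : Fin m × Fin m × ℕ // x.1 < x.2.1 ∧ Y.Adj x.1 x.2.1 ∧ x.2.2 < ℓ x.1 x.2.1}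

/-- `a` is followed by `b` on the path replacing some edge `uv` with `u < v`; the path is
`u, (u, v, 0), ..., (u, v, ℓ u v - 1), v`. -/
def Next {m : ℕ} (Y : SimpleGraph (Fin m)) (ℓ : Fin m → Fin m → ℕ) : SubV Y ℓ → SubV Y ℓ → Prop
  | Sum.inl u, Sum.inl v => u < v ∧ Y.Adj u v ∧ ℓ u v = 0
  | Sum.inl u, Sum.inr y => y.1.1 = u ∧ y.1.2.2 = 0
  | Sum.inr x, Sum.inl v => x.1.2.1 = v ∧ x.1.2.2 + 1 = ℓ x.1.1 x.1.2.1
  | Sum.inr x, Sum.inr y => x.1.1 = y.1.1 ∧ x.1.2.1 = y.1.2.1 ∧ x.1.2.2 + 1 = y.1.2.2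

/-- The subdivision of `Y` in which each edge `uv` with `u < v` is replaced by a path with `ℓ u v`
internal vertices. Every subdivision of `Y` is of this form, up to isomorphism. -/
def subdivision {m : ℕ} (Y : SimpleGraph (Fin m)) (ℓ : Fin m → Fin m → ℕ) :
    SimpleGraph (SubV Y ℓ) := SimpleGraph.fromRel (Next Y ℓ)

/-- The graph `X` belongs to the class of `Y`: there are a subdivision of `Y` and a family of
connected subgraphs of it, indexed by the vertices of `X`, such that two different vertices of `X`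
are adjacent if and only if their subgraphs share a vertex. -/
def InClass {m : ℕ} (Y : SimpleGraph (Fin m)) {V : Type} (X : SimpleGraph V) : Prop :=
  ∃ (ℓ : Fin m → Fin m → ℕ) (S : V → (subdivision Y ℓ).Subgraph),
    (∀ v, (S v).Connected) ∧
    ∀ u v, u ≠ v → (X.Adj u v ↔ ∃ w, w ∈ (S u).verts ∧ w ∈ (S v).verts)

/-- The class of `Y` is universal: every finite group is isomorphic to the automorphism group of a
finite graph in the class. -/
def Universal {m : ℕ} (Y : SimpleGraph (Fin m)) : Prop :=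
  ∀ (Γ : Type) [Group Γ] [Finite Γ], ∃ (V : Type) (_ : Finite V) (X : SimpleGraph V),
    InClass Y X ∧ Nonempty (Γ ≃* (X ≃g X))

end Pool.Agent.TH499.Univ
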