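import Mathlib

/-!
A sparse graph `W` whose automorphism group is a given finite group of order at least two.
-/

set_option autoImplicit false

namespace Pool.Agent.TH499.Univ

/-- The vertices. -/
inductive Vx (Γ : Type) (K : ℕ) : Type
  | p (g : Γ) (i : Fin (K + 1)) : Vx Γ K
  | q (g : Γ) (i : Fin (K + 1)) : Vx Γ K
  | r (g : Γ) (i : Fin (K + 1)) : Vx Γ K
  | z : Vx Γ K

open Vx

variable {Γ : Type} {K : ℕ}

def toSum : Vx Γ K → Option (Fin 3 × Γ × Fin (K + 1))
  | p g i => some (0, g, i)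
  | q g i => some (1, g, i)
  | r g i => some (2, g, i)
  | z => none

theorem toSum_inj : Function.Injective (toSum : Vx Γ K → _) := by
  intro x y h
  cases x <;> cases y <;> simp_all [toSum]

instance [Finite Γ] : Finite (Vx Γ K) := Finite.of_injective _ toSum_inj

/-- generating relation -/
def wRel [Mul Γ] (s : Fin (K + 1) → Γ) : Vx Γ K → Vx Γ K → Prop
  | z, p _ _ => True
  | p g i, q g' i' => g = g' ∧ i = i'
  | p g i, r g' j => g = g' ∧ j ≤ i
  | q g i, r g' j => g' = g * s i ∧ j = Fin.last K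
  | _, _ => False

/-- The sparse graph. -/
def W [Mul Γ] (s : Fin (K + 1) → Γ) : SimpleGraph (Vx Γ K) := SimpleGraph.fromRel (wRel s)

section

variable [Group Γ] {s : Fin (K + 1) → Γ}

theorem W_pp (g g' : Γ) (i i' : Fin (K + 1)) : ¬ (W s).Adj (p g i) (p g' i') := by
  simp [W, wRel]

theorem W_qq (g g' : Γ) (i i' : Fin (K + 1)) : ¬ (W s).Adj (q g i) (q g' i') := by
  simp [W, wRel]

theorem W_rr (g g' : Γ) (i i' : Fin (K + 1)) : ¬ (W s).Adj (r g i) (r g' i') := by
  simp [W, wRel]

theorem W_pq (g g' : Γ) (i i' : Fin (K + 1)) :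
    (W s).Adj (p g i) (q g' i') ↔ g = g' ∧ i = i' := by
  simp [W, wRel]

theorem W_pr (g g' : Γ) (i j : Fin (K + 1)) :
    (W s).Adj (p g i) (r g' j) ↔ g = g' ∧ j ≤ i := by
  simp [W, wRel]

theorem W_qr (g g' : Γ) (i j : Fin (K + 1)) :
    (W s).Adj (q g i) (r g' j) ↔ g' = g * s i ∧ j = Fin.last K := by
  simp [W, wRel]

theorem W_zp (g : Γ) (i : Fin (K + 1)) : (W s).Adj z (p g i) := by
  simp [W, wRel]

theorem W_zq (g : Γ) (i : Fin (K + 1)) : ¬ (W s).Adj z (q g i) := by
  simp [W, wRel]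

theorem W_zr (g : Γ) (i : Fin (K + 1)) : ¬ (W s).Adj z (r g i) := by
  simp [W, wRel]

/-- being of type `p` -/
def IsP : Vx Γ K → Prop
  | p _ _ => True
  | _ => False

def IsQ : Vx Γ K → Prop
  | q _ _ => True
  | _ => False

def IsR : Vx Γ K → Prop
  | r _ _ => True
  | _ => False

theorem isP_iff (x : Vx Γ K) : IsP x ↔ (W s).Adj z x := by
  cases x with
  | p g i => simp [IsP, W_zp]
  | q g i => simp [IsP, W_zq]
  | r g i => simp [IsP, W_zr]
  | z => simp [IsP]

theorem nbr_image (φ : Vx Γ K ≃ Vx Γ K) (hφ : ∀ x y, (W s).Adj (φ x) (φ y) ↔ (W s).Adj x y)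
    (x : Vx Γ K) (C : Vx Γ K → Prop) (hC : ∀ y, C (φ y) ↔ C y) :
    {y | (W s).Adj (φ x) y ∧ C y}.ncard = {y | (W s).Adj x y ∧ C y}.ncard := by
  have h : {y | (W s).Adj (φ x) y ∧ C y} = φ '' {y | (W s).Adj x y ∧ C y} := by
    ext y
    simp only [Set.mem_ofPred_eq, Set.mem_image]
    constructor
    · rintro ⟨h1, h2⟩
      refine ⟨φ.symm y, ⟨?_, ?_⟩, φ.apply_symm_apply y⟩
      · rw [← hφ, φ.apply_symm_apply]
        exact h1
      · rw [← hC, φ.apply_symm_apply]
        exact h2
    · rintro ⟨w, ⟨h1, h2⟩, rfl⟩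
      exact ⟨(hφ _ _).2 h1, (hC _).2 h2⟩
  rw [h, Set.ncard_image_of_injective _ φ.injective]

variable [Finite Γ]

theorem deg_z : {y | (W s).Adj z y ∧ True}.ncard = Nat.card Γ * (K + 1) := by
  have h : {y | (W s).Adj z y ∧ True} = Set.range (fun a : Γ × Fin (K + 1) => p a.1 a.2) := by
    ext y
    simp only [and_true, Set.mem_ofPred_eq, Set.mem_range, Prod.exists]
    rw [← isP_iff]
    cases y with
    | p g i => simp [IsP]
    | q g i => simp [IsP]
    | r g i => simp [IsP]
    | z => simp [IsP]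
  rw [h, ← Set.image_univ, Set.ncard_image_of_injective, Set.ncard_univ, Nat.card_prod,
    Nat.card_eq_fintype_card (α := Fin (K + 1)), Fintype.card_fin]
  rintro ⟨a, b⟩ ⟨c, d⟩ h
  simpa using h

theorem deg_lt (hn : 2 ≤ Nat.card Γ) (hK : 2 ≤ K) (x : Vx Γ K) (hx : x ≠ z) :
    {y | (W s).Adj x y ∧ True}.ncard < Nat.card Γ * (K + 1) := by
  have hrange : ∀ (F : Fin (K + 1) → Vx Γ K), (Set.range F).ncard ≤ K + 1 := by
    intro F
    rw [← Set.image_univ]
    refine (Set.ncard_image_le (Set.toFinite _)).trans ?_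
    rw [Set.ncard_univ, Nat.card_eq_fintype_card, Fintype.card_fin]
  have hbig : 2 * (K + 1) ≤ Nat.card Γ * (K + 1) := Nat.mul_le_mul_right _ hn
  cases x with
  | p g i =>
    have h1 : {y | (W s).Adj (p g i) y ∧ True} ⊆
        insert z (insert (q g i) (Set.range (fun j => r g j))) := by
      intro y hy
      simp only [and_true, Set.mem_ofPred_eq] at hy
      cases y with
      | p g' i' => exact absurd hy (W_pp _ _ _ _)
      | q g' i' =>
        obtain ⟨rfl, rfl⟩ := (W_pq _ _ _ _).1 hy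
        simp
      | r g' i' =>
        obtain ⟨rfl, -⟩ := (W_pr _ _ _ _).1 hy
        simp
      | z => simp
    have h2 := Set.ncard_le_ncard h1 (Set.toFinite _)
    have h3 := Set.ncard_insert_le z (insert (q g i) (Set.range (fun j => r g j)))
    have h4 := Set.ncard_insert_le (q g i) (Set.range (fun j => r g j))
    have h5 := hrange (fun j => r g j)
    omega
  | q g i =>
    have h1 : {y | (W s).Adj (q g i) y ∧ True} ⊆ {p g i, r (g * s i) (Fin.last K)} := by
      intro y hy
      simp only [and_true, Set.mem_ofPred_eq] at hy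
      cases y with
      | p g' i' =>
        obtain ⟨rfl, rfl⟩ := (W_pq _ _ _ _).1 hy.symm
        simp
      | q g' i' => exact absurd hy (W_qq _ _ _ _)
      | r g' i' =>
        obtain ⟨rfl, rfl⟩ := (W_qr _ _ _ _).1 hy
        simp
      | z => exact absurd hy.symm (W_zq _ _)
    have h2 := Set.ncard_le_ncard h1 (Set.toFinite _)
    have h3 := Set.ncard_insert_le (p g i) ({r (g * s i) (Fin.last K)} : Set (Vx Γ K))
    rw [Set.ncard_singleton] at h3
    omega
  | r g j =>
    by_cases hj : j = Fin.last K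
    · have h1 : {y | (W s).Adj (r g j) y ∧ True} ⊆
          insert (p g j) (Set.range (fun i => q (g * (s i)⁻¹) i)) := by
        intro y hy
        simp only [and_true, Set.mem_ofPred_eq] at hy
        cases y with
        | p g' i' =>
          obtain ⟨rfl, h⟩ := (W_pr _ _ _ _).1 hy.symm
          rw [hj] at h ⊢
          rw [Fin.last_le_iff.1 h]
          simp
        | q g' i' =>
          obtain ⟨rfl, -⟩ := (W_qr _ _ _ _).1 hy.symm
          right
          exact ⟨i', by simp⟩
        | r g' i' => exact absurd hy (W_rr _ _ _ _)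
        | z => exact absurd hy.symm (W_zr _ _)
      have h2 := Set.ncard_le_ncard h1 (Set.toFinite _)
      have h3 := Set.ncard_insert_le (p g j) (Set.range (fun i => q (g * (s i)⁻¹) i))
      have h5 := hrange (fun i => q (g * (s i)⁻¹) i)
      omega
    · have h1 : {y | (W s).Adj (r g j) y ∧ True} ⊆ Set.range (fun i => p g i) := by
        intro y hy
        simp only [and_true, Set.mem_ofPred_eq] at hy
        cases y with
        | p g' i' =>
          obtain ⟨rfl, h⟩ := (W_pr _ _ _ _).1 hy.symm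
          exact ⟨i', rfl⟩
        | q g' i' =>
          obtain ⟨-, h⟩ := (W_qr _ _ _ _).1 hy.symm
          exact absurd h hj
        | r g' i' => exact absurd hy (W_rr _ _ _ _)
        | z => exact absurd hy.symm (W_zr _ _)
      have h2 := Set.ncard_le_ncard h1 (Set.toFinite _)
      have h5 := hrange (fun i => p g i)
      omega
  | z => exact absurd rfl hx

theorem fix_z (hn : 2 ≤ Nat.card Γ) (hK : 2 ≤ K) (φ : Vx Γ K ≃ Vx Γ K)
    (hφ : ∀ x y, (W s).Adj (φ x) (φ y) ↔ (W s).Adj x y) : φ z = z := by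
  by_contra h
  have h1 := deg_lt (s := s) hn hK (φ z) h
  rw [nbr_image φ hφ z (fun _ => True) (fun _ => Iff.rfl), deg_z] at h1
  exact lt_irrefl _ h1

theorem pres_P (hn : 2 ≤ Nat.card Γ) (hK : 2 ≤ K) (φ : Vx Γ K ≃ Vx Γ K)
    (hφ : ∀ x y, (W s).Adj (φ x) (φ y) ↔ (W s).Adj x y) (x : Vx Γ K) : IsP (φ x) ↔ IsP x := by
  rw [isP_iff (s := s), isP_iff (s := s), ← hφ z x, fix_z hn hK φ hφ]

theorem pres_Q1 (hn : 2 ≤ Nat.card Γ) (hK : 2 ≤ K) (φ : Vx Γ K ≃ Vx Γ K)
    (hφ : ∀ x y, (W s).Adj (φ x) (φ y) ↔ (W s).Adj x y) (x : Vx Γ K) (hx : IsQ x) :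
    IsQ (φ x) := by
  cases x with
  | p g i => exact absurd hx (by simp [IsQ])
  | r g i => exact absurd hx (by simp [IsQ])
  | z => exact absurd hx (by simp [IsQ])
  | q g i =>
    have hz := fix_z hn hK φ hφ
    have h1 : (W s).Adj (φ (q g i)) (φ (r (g * s i) (Fin.last K))) := by
      rw [hφ, W_qr]
      exact ⟨rfl, rfl⟩
    have h2 : ¬ IsP (φ (q g i)) := by
      rw [pres_P hn hK φ hφ]
      simp [IsP]
    have h3 : ¬ IsP (φ (r (g * s i) (Fin.last K))) := by
      rw [pres_P hn hK φ hφ]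
      simp [IsP]
    have h4 : φ (q g i) ≠ z := by
      intro h
      rw [← hz] at h
      exact absurd (φ.injective h) (by simp)
    have h5 : φ (r (g * s i) (Fin.last K)) ≠ z := by
      intro h
      rw [← hz] at h
      exact absurd (φ.injective h) (by simp)
    have hdeg := nbr_image φ hφ (q g i) (fun _ => True) (fun _ => Iff.rfl)
    cases hy : φ (q g i) with
    | p g' i' => exact absurd (by rw [hy]; trivial) h2
    | q g' i' => trivial
    | z => exact absurd hy h4
    | r g' j =>
      exfalso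
      rw [hy] at h1 hdeg
      -- the label is the last one
      have hj : j = Fin.last K := by
        cases hw : φ (r (g * s i) (Fin.last K)) with
        | p g'' i'' => exact absurd (by rw [hw]; trivial) h3
        | q g'' i'' =>
          rw [hw] at h1
          exact ((W_qr _ _ _ _).1 h1.symm).2
        | r g'' i'' =>
          rw [hw] at h1
          exact absurd h1 (W_rr _ _ _ _)
        | z => exact absurd hw h5
      subst hj
      have hle : {y | (W s).Adj (q g i) y ∧ True}.ncard ≤ 2 := by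
        have h1 : {y | (W s).Adj (q g i) y ∧ True} ⊆ {p g i, r (g * s i) (Fin.last K)} := by
          intro y hy
          simp only [and_true, Set.mem_ofPred_eq] at hy
          cases y with
          | p g' i' =>
            obtain ⟨rfl, rfl⟩ := (W_pq _ _ _ _).1 hy.symm
            simp
          | q g' i' => exact absurd hy (W_qq _ _ _ _)
          | r g' i' =>
            obtain ⟨rfl, rfl⟩ := (W_qr _ _ _ _).1 hy
            simp
          | z => exact absurd hy.symm (W_zq _ _)
        have h2 := Set.ncard_le_ncard h1 (Set.toFinite _)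
        have h3 := Set.ncard_insert_le (p g i) ({r (g * s i) (Fin.last K)} : Set (Vx Γ K))
        rw [Set.ncard_singleton] at h3
        omega
      have hge : 3 ≤ {y | (W s).Adj (r g' (Fin.last K)) y ∧ True}.ncard := by
        have hsub : {p g' (Fin.last K), q (g' * (s 0)⁻¹) 0,
            q (g' * (s (Fin.last K))⁻¹) (Fin.last K)} ⊆
            {y | (W s).Adj (r g' (Fin.last K)) y ∧ True} := by
          intro y hy
          simp only [Set.mem_insert_iff, Set.mem_singleton_iff] at hy
          simp only [and_true, Set.mem_ofPred_eq]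
          rcases hy with rfl | rfl | rfl
          · rw [SimpleGraph.adj_comm, W_pr]
            exact ⟨rfl, le_rfl⟩
          · rw [SimpleGraph.adj_comm, W_qr]
            simp
          · rw [SimpleGraph.adj_comm, W_qr]
            simp
        have hne : (0 : Fin (K + 1)) ≠ Fin.last K := by
          intro h
          have := congrArg Fin.val h
          simp at this
          omega
        have hc : ({p g' (Fin.last K), q (g' * (s 0)⁻¹) 0,
            q (g' * (s (Fin.last K))⁻¹) (Fin.last K)} : Set (Vx Γ K)).ncard = 3 := by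
          rw [Set.ncard_eq_three]
          exact ⟨_, _, _, by simp, by simp, by simp [hne], rfl⟩
        rw [← hc]
        exact Set.ncard_le_ncard hsub (Set.toFinite _)
      omega

theorem pres_Q (hn : 2 ≤ Nat.card Γ) (hK : 2 ≤ K) (φ : Vx Γ K ≃ Vx Γ K)
    (hφ : ∀ x y, (W s).Adj (φ x) (φ y) ↔ (W s).Adj x y) (x : Vx Γ K) : IsQ (φ x) ↔ IsQ x := by
  constructor
  · intro h
    have h1 := pres_Q1 (s := s) hn hK φ.symm (by
      intro x y
      rw [← hφ, φ.apply_symm_apply, φ.apply_symm_apply]) (φ x) h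
    rwa [φ.symm_apply_apply] at h1
  · exact pres_Q1 hn hK φ hφ x

theorem pres_R (hn : 2 ≤ Nat.card Γ) (hK : 2 ≤ K) (φ : Vx Γ K ≃ Vx Γ K)
    (hφ : ∀ x y, (W s).Adj (φ x) (φ y) ↔ (W s).Adj x y) (x : Vx Γ K) : IsR (φ x) ↔ IsR x := by
  have key : ∀ y : Vx Γ K, IsR y ↔ ¬ IsP y ∧ ¬ IsQ y ∧ y ≠ z := by
    intro y
    cases y <;> simp [IsR, IsP, IsQ]
  rw [key, key, pres_P hn hK φ hφ, pres_Q hn hK φ hφ]
  have : φ x ≠ z ↔ x ≠ z := by
    rw [not_iff_not]
    constructor
    · intro h
      rw [← fix_z hn hK φ hφ] at h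
      exact φ.injective h
    · rintro rfl
      exact fix_z hn hK φ hφ
  rw [this]

theorem deg_pR (g : Γ) (i : Fin (K + 1)) :
    {y | (W s).Adj (p g i) y ∧ IsR y}.ncard = i.val + 1 := by
  have h : {y | (W s).Adj (p g i) y ∧ IsR y} = (fun j => r g j) '' (Set.Iic i) := by
    ext y
    simp only [Set.mem_ofPred_eq, Set.mem_image, Set.mem_Iic]
    constructor
    · rintro ⟨h1, h2⟩
      cases y with
      | p g' i' => exact absurd h2 (by simp [IsR])
      | q g' i' => exact absurd h2 (by simp [IsR])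
      | z => exact absurd h2 (by simp [IsR])
      | r g' j =>
        obtain ⟨rfl, h⟩ := (W_pr _ _ _ _).1 h1
        exact ⟨j, h, rfl⟩
    · rintro ⟨j, hj, rfl⟩
      exact ⟨(W_pr _ _ _ _).2 ⟨rfl, hj⟩, trivial⟩
  rw [h, Set.ncard_image_of_injective, Set.ncard_eq_toFinset_card', Set.toFinset_Iic,
    Fin.card_Iic]
  intro a b hab
  simpa using hab

theorem deg_rP (g : Γ) (j : Fin (K + 1)) :
    {y | (W s).Adj (r g j) y ∧ IsP y}.ncard = K + 1 - j.val := by
  have h : {y | (W s).Adj (r g j) y ∧ IsP y} = (fun i => p g i) '' (Set.Ici j) := by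
    ext y
    simp only [Set.mem_ofPred_eq, Set.mem_image, Set.mem_Ici]
    constructor
    · rintro ⟨h1, h2⟩
      cases y with
      | r g' i' => exact absurd h2 (by simp [IsP])
      | q g' i' => exact absurd h2 (by simp [IsP])
      | z => exact absurd h2 (by simp [IsP])
      | p g' i =>
        obtain ⟨rfl, h⟩ := (W_pr _ _ _ _).1 h1.symm
        exact ⟨i, h, rfl⟩
    · rintro ⟨i, hi, rfl⟩
      exact ⟨((W_pr _ _ _ _).2 ⟨rfl, hi⟩).symm, trivial⟩
  rw [h, Set.ncard_image_of_injective, Set.ncard_eq_toFinset_card', Set.toFinset_Ici,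
    Fin.card_Ici]
  intro a b hab
  simpa using hab

/-- left multiplication -/
def lamFun (h : Γ) : Vx Γ K → Vx Γ K
  | p g i => p (h * g) i
  | q g i => q (h * g) i
  | r g i => r (h * g) i
  | z => z

omit [Finite Γ] in
theorem lamFun_mul (h h' : Γ) (x : Vx Γ K) : lamFun (h * h') x = lamFun h (lamFun h' x) := by
  cases x <;> simp [lamFun, mul_assoc]

omit [Finite Γ] in
theorem lamFun_one (x : Vx Γ K) : lamFun (1 : Γ) x = x := by
  cases x <;> simp [lamFun]

/-- left multiplication as an equivalence -/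
def lam (h : Γ) : Vx Γ K ≃ Vx Γ K where
  toFun := lamFun h
  invFun := lamFun h⁻¹
  left_inv x := by rw [← lamFun_mul, inv_mul_cancel, lamFun_one]
  right_inv x := by rw [← lamFun_mul, mul_inv_cancel, lamFun_one]

omit [Finite Γ] in
theorem lam_adj (h : Γ) (x y : Vx Γ K) : (W s).Adj (lamFun h x) (lamFun h y) ↔ (W s).Adj x y := by
  cases x <;> cases y <;> simp [W, wRel, lamFun, mul_assoc]

theorem rigid (hn : 2 ≤ Nat.card Γ) (hK : 2 ≤ K) (hs : Function.Surjective s)
    (φ : Vx Γ K ≃ Vx Γ K)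
    (hφ : ∀ x y, (W s).Adj (φ x) (φ y) ↔ (W s).Adj x y) : ∃ h : Γ, ∀ x, φ x = lamFun h x := by
  have hP := pres_P hn hK φ hφ
  have hQ := pres_Q hn hK φ hφ
  have hR := pres_R hn hK φ hφ
  have hz := fix_z hn hK φ hφ
  have f1 : ∀ g i, ∃ g', φ (p g i) = p g' i := by
    intro g i
    have h1 : IsP (φ (p g i)) := (hP _).2 trivial
    cases hy : φ (p g i) with
    | q g' i' => rw [hy] at h1; exact absurd h1 (by simp [IsP])
    | r g' i' => rw [hy] at h1; exact absurd h1 (by simp [IsP])
    | z => rw [hy] at h1; exact absurd h1 (by simp [IsP])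
    | p g' i' =>
      have h2 := nbr_image φ hφ (p g i) IsR hR
      rw [hy, deg_pR, deg_pR] at h2
      exact ⟨g', by rw [Fin.ext (by omega : i'.val = i.val)]⟩
  have f2 : ∀ g j, ∃ g', φ (r g j) = r g' j := by
    intro g j
    have h1 : IsR (φ (r g j)) := (hR _).2 trivial
    cases hy : φ (r g j) with
    | q g' i' => rw [hy] at h1; exact absurd h1 (by simp [IsR])
    | p g' i' => rw [hy] at h1; exact absurd h1 (by simp [IsR])
    | z => rw [hy] at h1; exact absurd h1 (by simp [IsR])
    | r g' j' =>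
      have h2 := nbr_image φ hφ (r g j) IsP hP
      rw [hy, deg_rP, deg_rP] at h2
      have h3 := j.2
      have h4 := j'.2
      exact ⟨g', by rw [Fin.ext (by omega : j'.val = j.val)]⟩
  have f3 : ∀ g i, ∃ g' i', φ (q g i) = q g' i' := by
    intro g i
    have h1 : IsQ (φ (q g i)) := (hQ _).2 trivial
    cases hy : φ (q g i) with
    | q g' i' => exact ⟨g', i', rfl⟩
    | p g' i' => rw [hy] at h1; exact absurd h1 (by simp [IsQ])
    | z => rw [hy] at h1; exact absurd h1 (by simp [IsQ])
    | r g' j' => rw [hy] at h1; exact absurd h1 (by simp [IsQ])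
  choose f hf using fun g => f2 g 0
  have k1 : ∀ g i, φ (p g i) = p (f g) i := by
    intro g i
    obtain ⟨g', hg'⟩ := f1 g i
    have h1 : (W s).Adj (φ (p g i)) (φ (r g 0)) := by
      rw [hφ, W_pr]
      exact ⟨rfl, Fin.zero_le _⟩
    rw [hg', hf, W_pr] at h1
    rw [hg', h1.1]
  have k2 : ∀ g j, φ (r g j) = r (f g) j := by
    intro g j
    obtain ⟨g', hg'⟩ := f2 g j
    have h1 : (W s).Adj (φ (p g (Fin.last K))) (φ (r g j)) := by
      rw [hφ, W_pr]
      exact ⟨rfl, Fin.le_last _⟩
    rw [hg', k1, W_pr] at h1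
    rw [hg', h1.1]
  have k3 : ∀ g i, φ (q g i) = q (f g) i := by
    intro g i
    obtain ⟨g', i', hg'⟩ := f3 g i
    have h1 : (W s).Adj (φ (p g i)) (φ (q g i)) := by
      rw [hφ, W_pq]
      exact ⟨rfl, rfl⟩
    rw [hg', k1, W_pq] at h1
    rw [hg', h1.1, h1.2]
  have k4 : ∀ g i, f (g * s i) = f g * s i := by
    intro g i
    have h1 : (W s).Adj (φ (q g i)) (φ (r (g * s i) (Fin.last K))) := by
      rw [hφ, W_qr]
      exact ⟨rfl, rfl⟩
    rw [k2, k3, W_qr] at h1
    exact h1.1
  have k5 : ∀ g, f g = f 1 * g := by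
    intro g
    obtain ⟨i, rfl⟩ := hs g
    have := k4 1 (i)
    rwa [one_mul] at this
  refine ⟨f 1, fun x => ?_⟩
  cases x with
  | p g i => rw [k1, k5]; rfl
  | q g i => rw [k3, k5]; rfl
  | r g i => rw [k2, k5]; rfl
  | z => exact hz

end

/-- The graph `X`, the complement of `W`. -/
def X [Mul Γ] (s : Fin (K + 1) → Γ) : SimpleGraph (Vx Γ K) := (W s)ᶜ

theorem X_adj [Mul Γ] (s : Fin (K + 1) → Γ) (x y : Vx Γ K) :
    (X s).Adj x y ↔ x ≠ y ∧ ¬ (W s).Adj x y := SimpleGraph.compl_adj _ _ _

/-- left multiplication as an automorphism of `X` -/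
def lamIso [Group Γ] (s : Fin (K + 1) → Γ) (h : Γ) : X s ≃g X s where
  toEquiv := lam h
  map_rel_iff' := by
    intro x y
    show (X s).Adj (lamFun h x) (lamFun h y) ↔ (X s).Adj x y
    rw [X_adj, X_adj, lam_adj]
    have : lamFun h x ≠ lamFun h y ↔ x ≠ y := (lam h).injective.ne_iff
    rw [this]

theorem aut_X [Group Γ] [Finite Γ] (s : Fin (K + 1) → Γ) (hn : 2 ≤ Nat.card Γ) (hK : 2 ≤ K)
    (hs : Function.Surjective s) : Nonempty (Γ ≃* (X s ≃g X s)) := by
  let F : Γ →* (X s ≃g X s) :=
    { toFun := lamIso s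
      map_one' := by
        apply RelIso.ext
        intro x
        exact lamFun_one x
      map_mul' := by
        intro h h'
        apply RelIso.ext
        intro x
        exact lamFun_mul h h' x }
  refine ⟨MulEquiv.ofBijective F ⟨?_, ?_⟩⟩
  · intro h h' hh
    have h1 : (lamFun h (p 1 0) : Vx Γ K) = lamFun h' (p 1 0) :=
      congrArg (fun (e : X s ≃g X s) => e (p 1 0)) hh
    simpa [lamFun] using h1
  · intro φ
    obtain ⟨h, hh⟩ := rigid (s := s) hn hK hs φ.toEquiv (by
      intro x y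
      have h1 : (X s).Adj (φ x) (φ y) ↔ (X s).Adj x y := φ.map_rel_iff
      rw [X_adj, X_adj] at h1
      have h2 : φ x ≠ φ y ↔ x ≠ y := φ.injective.ne_iff
      rw [h2] at h1
      by_cases hxy : x = y
      · subst hxy
        simp
      · have h3 : φ.toEquiv x = φ x := rfl
        have h4 : φ.toEquiv y = φ y := rfl
        rw [h3, h4]
        have h5 : x ≠ y := hxy
        tauto)
    refine ⟨h, ?_⟩
    apply RelIso.ext
    intro x
    exact (hh x).symm

end Pool.Agent.TH499.Univ
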